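import Pool.Agent.W2helper48.CA.Main

/-!
# No totally real multiquadratic field of degree at least 8 has a universal ternary form

Let `K = ℚ(√d₁, …, √d_k)` be a totally real multiquadratic field of degree `2 ^ k`, `k ≥ 3`. It is proved that there is no
universal, classical, totally positive definite ternary quadratic form over the ring of integers of `K`.

The proof is by contradiction, for a universal lattice of rank three.

1. If some totally positive unit of `K` is not a square, then the indecomposable elements split into two square classes, which is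
   impossible in a multiquadratic field of degree at least eight (the directory `MQ`).
2. So all totally positive units are squares, all signatures occur for units, every quadratic subfield has a unit of norm `-1` and
   every `d` with `√d ∈ K` is a sum of two squares. Let `z` be a totally positive integer of the least trace which is not fixed by the
   inertia groups at all primes at least `13` (these generate a subgroup with fixed field `K ∩ ℚ(√2, √5)`). Short vectors of the
   lattice and the vector representing `z` are compared in the five cases for the field `K ∩ ℚ(√2, √5)` (the directory `CA`).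
-/

set_option autoImplicit false

namespace Pool.Agent.Results.MP_eae946_nt.NoUniversalTernary

open NumberField

/-- `x` is totally positive. -/
def TotPos {K : Type*} [Field K] (x : K) : Prop := ∀ φ : K →+* ℝ, 0 < φ x

/-- The value at `v` of the ternary quadratic form `∑_{i ≤ j} a i j * x_i * x_j`. -/
def value {K : Type*} [Field K] [NumberField K] (a : Fin 3 → Fin 3 → 𝓞 K) (v : Fin 3 → K) : K :=
  ∑ i, ∑ j ∈ Finset.Ici i, (a i j : K) * v i * v j

/-- There is a universal, classical, totally positive definite ternary quadratic form over the ring of integers of `K`. -/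
def HasUniversalTernary (K : Type*) [Field K] [NumberField K] : Prop :=
  ∃ a : Fin 3 → Fin 3 → 𝓞 K, (∀ i j, i < j → ∃ c : 𝓞 K, a i j = 2 * c) ∧
    (∀ v : Fin 3 → K, v ≠ 0 → TotPos (value a v)) ∧
    ∀ α : 𝓞 K, TotPos (α : K) → ∃ v : Fin 3 → 𝓞 K, value a (fun i => (v i : K)) = α

/-- `K = ℚ(√d₁, …, √d_k)` with integers `dᵢ`, and `K` has degree `2 ^ k`. -/
def IsMultiquadratic (k : ℕ) (K : Type*) [Field K] [NumberField K] : Prop :=
  Module.finrank ℚ K = 2 ^ k ∧
    ∃ x : Fin k → K, (∀ i, ∃ d : ℤ, x i ^ 2 = d) ∧ IntermediateField.adjoin ℚ (Set.range x) = ⊤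

/-- For every `k ≥ 3`, no totally real multiquadratic field of degree `2 ^ k` admits a universal classical ternary quadratic form. -/
theorem result (k : ℕ) (hk : 3 ≤ k) (K : Type*) [Field K] [NumberField K] [IsTotallyReal K]
    (hK : IsMultiquadratic k K) : ¬ HasUniversalTernary K := by
  classical
  rintro ⟨a, hcl, hpos, huniv⟩
  apply Pool.W2helper48.MQ.no_universal hk (K := K) hK
  obtain ⟨c01, h01⟩ := hcl 0 1 (by decide)
  obtain ⟨c02, h02⟩ := hcl 0 2 (by decide)
  obtain ⟨c12, h12⟩ := hcl 1 2 (by decide)
  have hval : ∀ v : Fin 3 → K, Pool.W2helper48.MQ.Qval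
      !![a 0 0, c01, c02; c01, a 1 1, c12; c02, c12, a 2 2] v = value a v := by
    intro v
    have e0 : Finset.Ici (0 : Fin 3) = {0, 1, 2} := by decide
    have e1 : Finset.Ici (1 : Fin 3) = {1, 2} := by decide
    have e2 : Finset.Ici (2 : Fin 3) = {2} := by decide
    unfold Pool.W2helper48.MQ.Qval value
    simp only [Fin.sum_univ_three, e0, e1, e2]
    rw [Finset.sum_insert (by decide), Finset.sum_insert (by decide), Finset.sum_singleton,
      Finset.sum_insert (by decide), Finset.sum_singleton, Finset.sum_singleton, h01, h02, h12]
    simp only [Matrix.of_apply, Matrix.cons_val', Matrix.cons_val_zero, Matrix.cons_val_one, Matrix.cons_val,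
      Matrix.cons_val_fin_one, map_mul, map_ofNat]
    ring
  refine ⟨!![a 0 0, c01, c02; c01, a 1 1, c12; c02, c12, a 2 2], ?_, ?_, ?_⟩
  · apply Matrix.IsSymm.ext
    intro i j
    fin_cases i <;> fin_cases j <;> rfl
  · intro v hv
    rw [hval]
    exact hpos v hv
  · intro α hα
    obtain ⟨v, hv⟩ := huniv α hα
    exact ⟨v, by rw [hval]; exact hv⟩

end Pool.Agent.Results.MP_eae946_nt.NoUniversalTernary
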